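import Mathlib
import Pool.Agent.H23.RelFree

set_option autoImplicit false

namespace Pool.Agent.Results.MP_e7abc8_al.NotHopf

open Pool.Agent.H23.RelFree

theorem result : ∃ (S : Set (Fr (ZMod 2) ℕ)) (A : Type) (_ : NonUnitalNonAssocRing A)
    (_ : Module (ZMod 2) A) (_ : IsScalarTower (ZMod 2) A A) (_ : SMulCommClass (ZMod 2) A A),
    IsFree S 1 A ∧ ∃ φ : A →ₙₐ[ZMod 2] A, Function.Surjective φ ∧ ¬ Function.Injective φ :=
  ⟨_, A, inferInstance, inferInstance, inferInstance, inferInstance, free, sub (x * x), fun g =>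
    ⟨sub (x * x * x) g, Subtype.ext (funext fun y => congrArg g.1 (ts y))⟩, fun h =>
    stA (h (Subtype.ext (funext fun y => congrArg₂ (· * ·) (ts y) (ts y))))⟩

end Pool.Agent.Results.MP_e7abc8_al.NotHopf
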