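import Mathlib
import Pool.Agent.H23.RelFree

set_option autoImplicit false

namespace Pool.Agent.Results.MP_e7abc8_al.NotRF

open Pool.Agent.H23.RelFree

theorem result : ∃ (S : Set (Fr (ZMod 2) ℕ)) (A : Type) (_ : NonUnitalNonAssocRing A)
    (_ : Module (ZMod 2) A) (_ : IsScalarTower (ZMod 2) A A) (_ : SMulCommClass (ZMod 2) A A),
    IsFree S 1 A ∧ ∃ a : A, a ≠ 0 ∧ ∀ I : Submodule (ZMod 2) A,
      (∀ b ∈ I, ∀ c, b * c ∈ I ∧ c * b ∈ I) → Finite (A ⧸ I) → a ∈ I := by
  refine ⟨_, A, inferInstance, inferInstance, inferInstance, inferInstance, free, _,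
    sub_ne_zero.2 stA, fun I h _ => ?_⟩
  have m : ∀ {a b c d : A}, a - b ∈ I → c - d ∈ I → a * c - b * d ∈ I := fun {a b c d} i j => by
    simpa [sub_mul, mul_sub] using I.add_mem (h _ i c).1 (h _ j b).2
  let s : A ⧸ I → A ⧸ I := Quotient.map' (fun y => y * y) fun a b e => by
    rw [Submodule.quotientRel_def] at *; exact m e e
  have : Function.Injective s := by
    rintro ⟨a⟩ ⟨b⟩ e
    have e := (Submodule.Quotient.eq I).1 e
    exact (Submodule.Quotient.eq I).2 (tsA a ▸ tsA b ▸ m (m e e) e)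
  obtain ⟨⟨y⟩, e⟩ := Finite.surjective_of_injective this (Submodule.Quotient.mk x)
  have e := (Submodule.Quotient.eq I).1 e
  have k := m (m e e) e
  rw [tsA] at k
  simpa using I.sub_mem e (m k k)

end Pool.Agent.Results.MP_e7abc8_al.NotRF
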